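import Pool.Agent.H40.TG.Main2

/-!
# A bounding pair map and a separating twist in the Torelli group generate a free group

Let `f` be a bounding pair map and `h` a Dehn twist about a separating curve of the closed surface
of genus `g`. If the pair and the curve are not homologically separated (for instance, if the
homology class of the pair lies in the homology of neither side of the curve), then for all nonzero
`m`, `n`, all `k₁` in the Johnson kernel and all `k₂` acting trivially on `π / γ₄(π)` the elements
`f ^ m * k₁` and `h ^ n * k₂` of the Torelli group freely generate a free group of rank two.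
-/

namespace Pool.Agent.Results.MP_19a1a5_al.BPAndTwist

open TG

theorem result (g : ℕ) (d : BP g) (T : ST g) (hsep : ¬ HomSep d T)
    (m n : ℤ) (hm : m ≠ 0) (hn : n ≠ 0) (k₁ k₂ : OutG (Surf g)) (h₁ : InJohnsonKernel k₁)
    (h₂ : InJohnson3 k₂) :
    InTorelli (d.map ^ m * k₁) ∧ InTorelli (T.map ^ n * k₂) ∧
      FreelyGenerate (d.map ^ m * k₁) (T.map ^ n * k₂) :=
  ⟨inTorelli_of_mem ((torelli g).mul_mem ((torelli g).zpow_mem (map_mem_torelli d) m)
      (johnson_le_torelli (mem_of_inJohnson h₁))),
    inTorelli_of_mem ((torelli g).mul_mem ((torelli g).zpow_mem T.map_mem_torelli n)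
      (johnson3_mem_torelli h₂)),
    main2 hsep hm hn h₁ h₂⟩

end Pool.Agent.Results.MP_19a1a5_al.BPAndTwist
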