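import Pool.Agent.H40.TG.Main

/-!
# Pairs of bounding pair maps in the Torelli group generate free groups

Let `f`, `h` be bounding pair maps of the closed surface of genus `g`, with homology classes `a`
and `c`. If the algebraic intersection number of `a` and `c` is nonzero, or, more generally, if
`a` and `c` are linearly independent and the two pairs are not homologically separated, then for
all nonzero `m`, `n` and all `k₁`, `k₂` in the Johnson kernel the elements `f ^ m * k₁` and
`h ^ n * k₂` of the Torelli group freely generate a free group of rank two.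
-/

namespace Pool.Agent.Results.MP_19a1a5_al.BoundingPairs

open TG

theorem result (g : ℕ) (d e : BP g)
    (hde : inter d.a e.a ≠ 0 ∨ (LinearIndependent ℚ ![d.a, e.a] ∧ ¬ Separated d e))
    (m n : ℤ) (hm : m ≠ 0) (hn : n ≠ 0) (k₁ k₂ : OutG (Surf g)) (h₁ : InJohnsonKernel k₁)
    (h₂ : InJohnsonKernel k₂) :
    InTorelli (d.map ^ m * k₁) ∧ InTorelli (e.map ^ n * k₂) ∧
      FreelyGenerate (d.map ^ m * k₁) (e.map ^ n * k₂) := by
  have h : LinearIndependent ℚ ![d.a, e.a] ∧ ¬ Separated d e := hde.elim sep_of_inter id
  have h₁' := mem_of_inJohnson h₁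
  have h₂' := mem_of_inJohnson h₂
  exact ⟨inTorelli_of_mem ((torelli g).mul_mem ((torelli g).zpow_mem (map_mem_torelli d) m)
      (johnson_le_torelli h₁')),
    inTorelli_of_mem ((torelli g).mul_mem ((torelli g).zpow_mem (map_mem_torelli e) n)
      (johnson_le_torelli h₂')),
    main h.1 h.2 hm hn h₁' h₂'⟩

end Pool.Agent.Results.MP_19a1a5_al.BoundingPairs
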