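import Pool.Agent.H40.GZ.Main

/-!
# Generic pairs of elements of the Torelli group generate free groups

For every `g ≥ 3` there is a nonzero polynomial `P` on the space of pairs of alternating 3-forms on
the rational homology of the closed surface of genus `g` with the following property. If `f` and `h`
are elements of the Torelli group, whose images under the Johnson homomorphism are represented by
the forms `x` and `y`, and if `P(x, y) ≠ 0`, then `f` and `h` freely generate a free group of rank
two.
-/

namespace Pool.Agent.Results.MP_19a1a5_al.GenericPairs

open TG GZ

theorem result (g : ℕ) (hg : 3 ≤ g) :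
    ∃ (n : ℕ) (b : Module.Basis (Fin n) ℚ (A3 g × A3 g)) (P : MvPolynomial (Fin n) ℚ), P ≠ 0 ∧
      ∀ (f h : OutG (Surf g)) (x y : A3 g), IsJohnson f x → IsJohnson h y →
        MvPolynomial.eval (b.repr (x, y)) P ≠ 0 →
          InTorelli f ∧ InTorelli h ∧ FreelyGenerate f h :=
  GZ.main g hg

end Pool.Agent.Results.MP_19a1a5_al.GenericPairs
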