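import Pool.Agent.H40.GZ.BPG

/-!
# A bounding pair map of genus one and a generic element of the Torelli group

Let `f` be a bounding pair map of genus one of the closed surface of genus `g`, `m ≠ 0` and `k₁` an
element of the Johnson kernel. There is a nonzero polynomial `P` on the space of alternating 3-forms
on the rational homology of the surface such that `f ^ m * k₁` and `h` freely generate a free group
of rank two, for every element `h` of the Torelli group whose image under the Johnson homomorphism
is represented by a form `y` with `P(y) ≠ 0`.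
-/

namespace Pool.Agent.Results.MP_19a1a5_al.GenusOneBP

open TG GZ

theorem result (g : ℕ) (d : BP g) (hk : (d.k : ℕ) = 1) (m : ℤ) (hm : m ≠ 0)
    (k₁ : OutG (Surf g)) (h₁ : InJohnsonKernel k₁) :
    ∃ (n : ℕ) (b : Module.Basis (Fin n) ℚ (A3 g)) (P : MvPolynomial (Fin n) ℚ), P ≠ 0 ∧
      ∀ (h : OutG (Surf g)) (y : A3 g), IsJohnson h y → MvPolynomial.eval (b.repr y) P ≠ 0 →
        InTorelli (d.map ^ m * k₁) ∧ InTorelli h ∧ FreelyGenerate (d.map ^ m * k₁) h := by
  obtain ⟨n, b, P, hP, h2⟩ := GZ.bp_generic d hk hm h₁
  refine ⟨n, b, P, hP, fun h y hy hne => ⟨?_, (h2 h y hy hne).1, (h2 h y hy hne).2⟩⟩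
  exact inTorelli_of_mem ((torelli g).mul_mem ((torelli g).zpow_mem (map_mem_torelli d) m)
      (johnson_le_torelli (mem_of_inJohnson h₁)))

end Pool.Agent.Results.MP_19a1a5_al.GenusOneBP
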